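import Mathlib

/-!
# The equality `√12 n = F(s_n)` holds for no positive integer `n`

`MP_77b5a8_co`, Q1 (Nurmela, Östergård and aus dem Spring): let `s_n` be the minimal side length of a
square which contains `n` nonoverlapping unit discs and `F(s) = s² - (3 + √3) s + 2 + 2√3`.  Does
`√12 n = F(s_n)` hold for infinitely many positive integers `n`?

The answer is no, for the function `F` of the problem: the ordinary hexagonal arrangement of discs
with horizontal rows gives `√12 (n - 1) ≥ (s_n - 2)²`, and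
`(s_n - 2)² + √12 > (s_n - 2)(s_n - 1 - √3) = F(s_n)`.  So `√12 n > F(s_n)` for all `n ≥ 1`.
-/

set_option autoImplicit false

namespace Pool.Agent.Results.MP_77b5a8_co.NoEquality

/-- The Euclidean plane. -/
abbrev Plane := EuclideanSpace ℝ (Fin 2)

/-- `Q` is a (closed, solid) square of side length `s`: the image of `[0, s]²` under an isometry of
the plane. -/
def IsSquare (s : ℝ) (Q : Set Plane) : Prop :=
  ∃ φ : Plane ≃ᵢ Plane, Q = φ '' {x : Plane | ∀ i, x i ∈ Set.Icc 0 s}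

/-- The set `Q` contains `n` nonoverlapping unit discs. -/
def ContainsDiscs (n : ℕ) (Q : Set Plane) : Prop :=
  ∃ c : Fin n → Plane, (∀ i, Metric.closedBall (c i) 1 ⊆ Q) ∧
    ∀ i j, i ≠ j →
      Disjoint (interior (Metric.closedBall (c i) 1)) (interior (Metric.closedBall (c j) 1))

/-- The side lengths of the squares which contain `n` nonoverlapping unit discs. -/
def sides (n : ℕ) : Set ℝ := {s : ℝ | 0 ≤ s ∧ ∃ Q, IsSquare s Q ∧ ContainsDiscs n Q}

/-- The minimal side length `s_n` of a square which contains `n` nonoverlapping unit discs. -/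
noncomputable def sideMin (n : ℕ) : ℝ := sInf (sides n)

/-- The function `F` of the problem. -/
noncomputable def F (s : ℝ) : ℝ := s ^ 2 - (3 + √3) * s + 2 + 2 * √3

/-- The centre with the index `(r, i)`: the `i`-th disc of the row `r`. -/
noncomputable def cen (r i : ℕ) : Plane := !₂[1 + 2 * (i : ℝ) + ((r % 2 : ℕ) : ℝ), 1 + √3 * r]

theorem cen_dist {r i r' i' : ℕ} (h : (r, i) ≠ (r', i')) : 2 ≤ dist (cen r i) (cen r' i') := by
  obtain ⟨p, hp⟩ : ∃ p, p = r % 2 := ⟨_, rfl⟩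
  obtain ⟨p', hp'⟩ : ∃ p', p' = r' % 2 := ⟨_, rfl⟩
  rw [EuclideanSpace.dist_eq, Fin.sum_univ_two]
  refine Real.le_sqrt_of_sq_le ?_
  simp only [cen, Real.dist_eq, sq_abs, ← hp, ← hp']
  have e : ((!₂[1 + 2 * (i : ℝ) + (p : ℝ), 1 + √3 * r] : Plane) 0 -
      (!₂[1 + 2 * (i' : ℝ) + (p' : ℝ), 1 + √3 * r'] : Plane) 0) ^ 2 +
      ((!₂[1 + 2 * (i : ℝ) + (p : ℝ), 1 + √3 * r] : Plane) 1 -
      (!₂[1 + 2 * (i' : ℝ) + (p' : ℝ), 1 + √3 * r'] : Plane) 1) ^ 2 =
      (((2 * i + p - 2 * i' - p') ^ 2 + 3 * (r - r') ^ 2 : ℤ) : ℝ) := by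
    push_cast
    have h3 : √3 ^ 2 = 3 := Real.sq_sqrt (by norm_num)
    simp
    linear_combination (r - r' : ℝ) ^ 2 * h3
  rw [e]
  have : (4 : ℤ) ≤ (2 * i + p - 2 * i' - p') ^ 2 + 3 * (r - r') ^ 2 := by
    rcases eq_or_ne r r' with hr | hr
    · subst hr
      have hi : (i : ℤ) ≠ i' := by
        intro hh
        apply h
        have : i = i' := by exact_mod_cast hh
        rw [this]
      have : (2 * (i : ℤ) + p - 2 * i' - p') = 2 * (i - i') := by rw [hp, hp']; ring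
      rw [this]
      have h1 : (1 : ℤ) ≤ (i - i') ^ 2 := by
        have : (i : ℤ) - i' ≠ 0 := sub_ne_zero.2 hi
        have := sq_pos_of_ne_zero this
        linarith
      nlinarith
    · have hr' : (r : ℤ) ≠ r' := by exact_mod_cast hr
      rcases lt_or_ge 1 |(r : ℤ) - r'| with h1 | h1
      · have h2 : (4 : ℤ) ≤ ((r : ℤ) - r') ^ 2 := by
          rw [← sq_abs]; nlinarith
        nlinarith [sq_nonneg (2 * (i : ℤ) + p - 2 * i' - p')]
      · have h2 : (r : ℤ) - r' = 1 ∨ (r : ℤ) - r' = -1 := by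
          rw [abs_le] at h1
          omega
        have h3 : (2 * (i : ℤ) + p - 2 * i' - p') ≠ 0 := by
          omega
        have h4 := sq_pos_of_ne_zero h3
        have h5 : ((r : ℤ) - r') ^ 2 = 1 := by
          rcases h2 with h2 | h2 <;> rw [h2] <;> norm_num
        rw [h5]
        linarith
  have h4 : ((4 : ℤ) : ℝ) ≤ (((2 * i + p - 2 * i' - p') ^ 2 + 3 * (r - r') ^ 2 : ℤ) : ℝ) := by
    exact_mod_cast this
  calc (2 : ℝ) ^ 2 = ((4 : ℤ) : ℝ) := by norm_num
    _ ≤ _ := h4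

/-- The number of discs of the row `r`. -/
noncomputable def len (s : ℝ) (r : ℕ) : ℕ := if r % 2 = 0 then ⌊s / 2⌋₊ else ⌊(s - 1) / 2⌋₊

/-- The indices of the discs. -/
noncomputable def idx (s : ℝ) : Finset (Σ _ : ℕ, ℕ) :=
  (Finset.range (⌊(s - 2) / √3⌋₊ + 1)).sigma fun r => Finset.range (len s r)

theorem sqrt3_pos : (0 : ℝ) < √3 := by positivity

theorem idx_bounds {s : ℝ} (hs : 2 ≤ s) {r i : ℕ} (h : (⟨r, i⟩ : Σ _ : ℕ, ℕ) ∈ idx s) :
    ∀ j, cen r i j ∈ Set.Icc 1 (s - 1) := by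
  rw [idx, Finset.mem_sigma, Finset.mem_range, Finset.mem_range] at h
  obtain ⟨h1, h2⟩ := h
  simp only at h1 h2
  intro j
  fin_cases j
  · simp only [cen, Fin.zero_eta, Fin.isValue, Set.mem_Icc]
    simp only [Matrix.cons_val_zero]
    constructor
    · have : (0 : ℝ) ≤ i := Nat.cast_nonneg i
      have : (0 : ℝ) ≤ ((r % 2 : ℕ) : ℝ) := Nat.cast_nonneg _
      linarith
    · unfold len at h2
      split_ifs at h2 with h3
      · rw [h3]
        have h4 : i + 1 ≤ ⌊s / 2⌋₊ := h2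
        have h5 : ((i + 1 : ℕ) : ℝ) ≤ s / 2 := by
          have := Nat.floor_le (show 0 ≤ s / 2 by linarith)
          have h6 : ((i + 1 : ℕ) : ℝ) ≤ ⌊s / 2⌋₊ := by exact_mod_cast h4
          linarith
        push_cast at h5 ⊢
        linarith
      · have h3' : r % 2 = 1 := by omega
        rw [h3']
        have h4 : i + 1 ≤ ⌊(s - 1) / 2⌋₊ := h2
        have h5 : ((i + 1 : ℕ) : ℝ) ≤ (s - 1) / 2 := by
          have := Nat.floor_le (show 0 ≤ (s - 1) / 2 by linarith)
          have h6 : ((i + 1 : ℕ) : ℝ) ≤ ⌊(s - 1) / 2⌋₊ := by exact_mod_cast h4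
          linarith
        push_cast at h5 ⊢
        linarith
  · simp only [cen, Fin.mk_one, Fin.isValue, Set.mem_Icc]
    simp only [Matrix.cons_val_one]
    constructor
    · have : (0 : ℝ) ≤ √3 * r := by positivity
      simp
    · have h4 : r ≤ ⌊(s - 2) / √3⌋₊ := by omega
      have h5 : (r : ℝ) ≤ (s - 2) / √3 := by
        have := Nat.floor_le (show 0 ≤ (s - 2) / √3 from div_nonneg (by linarith) sqrt3_pos.le)
        have h6 : (r : ℝ) ≤ ⌊(s - 2) / √3⌋₊ := by exact_mod_cast h4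
        linarith
      rw [le_div_iff₀ sqrt3_pos] at h5
      have : √3 * r ≤ s - 2 := by linarith
      simp
      linarith

theorem sum_len (s : ℝ) (R : ℕ) :
    2 * ∑ r ∈ Finset.range R, len s r + (if R % 2 = 1 then ⌊(s - 1) / 2⌋₊ else 0) =
      R * (⌊s / 2⌋₊ + ⌊(s - 1) / 2⌋₊) + (if R % 2 = 1 then ⌊s / 2⌋₊ else 0) := by
  induction R with
  | zero => simp
  | succ R ih =>
    rw [Finset.sum_range_succ]
    rcases Nat.mod_two_eq_zero_or_one R with h | h
    · have h' : (R + 1) % 2 = 1 := by omega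
      have hl : len s R = ⌊s / 2⌋₊ := by rw [len, if_pos h]
      rw [if_neg (by omega), if_neg (by omega)] at ih
      rw [if_pos h', if_pos h', hl]
      linarith
    · have h' : ¬ (R + 1) % 2 = 1 := by omega
      have hl : len s R = ⌊(s - 1) / 2⌋₊ := by rw [len, if_neg (by omega)]
      rw [if_pos h, if_pos h] at ih
      rw [if_neg h', if_neg h', hl]
      linarith

theorem floor_add {s : ℝ} (hs : 2 ≤ s) : s - 2 < ⌊s / 2⌋₊ + ⌊(s - 1) / 2⌋₊ := by
  have h1 : ⌊s / 2⌋₊ = ⌊s⌋₊ / 2 := by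
    have := Nat.floor_div_natCast s 2
    simpa using this
  have h2 : ⌊(s - 1) / 2⌋₊ = (⌊s⌋₊ - 1) / 2 := by
    have := Nat.floor_div_natCast (s - 1) 2
    rw [Nat.floor_sub_one] at this
    simpa using this
  have h3 : 2 ≤ ⌊s⌋₊ := Nat.le_floor (by simpa using hs)
  have h4 : ⌊s / 2⌋₊ + ⌊(s - 1) / 2⌋₊ + 1 = ⌊s⌋₊ := by rw [h1, h2]; omega
  have h5 := Nat.lt_floor_add_one s
  have h6 : (⌊s / 2⌋₊ : ℝ) + ⌊(s - 1) / 2⌋₊ + 1 = ⌊s⌋₊ := by exact_mod_cast h4
  linarith

theorem sqrt12 : √12 = 2 * √3 := by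
  rw [show (12 : ℝ) = 2 ^ 2 * 3 by norm_num, Real.sqrt_mul (by norm_num), Real.sqrt_sq (by norm_num)]

theorem idx_card {s : ℝ} (hs : 2 ≤ s) : (s - 2) ^ 2 < √12 * (idx s).card := by
  have h1 : (idx s).card = ∑ r ∈ Finset.range (⌊(s - 2) / √3⌋₊ + 1), len s r := by
    rw [idx, Finset.card_sigma]
    simp
  set R := ⌊(s - 2) / √3⌋₊ + 1 with hR
  have h2 := sum_len s R
  have hab : ⌊(s - 1) / 2⌋₊ ≤ ⌊s / 2⌋₊ := Nat.floor_le_floor (by linarith)
  have h3 : R * (⌊s / 2⌋₊ + ⌊(s - 1) / 2⌋₊) ≤ 2 * (idx s).card := by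
    rw [h1]
    split_ifs at h2 <;> omega
  have h4 : (R : ℝ) * (⌊s / 2⌋₊ + ⌊(s - 1) / 2⌋₊) ≤ 2 * (idx s).card := by exact_mod_cast h3
  have h5 : (s - 2) / √3 < R := by
    rw [hR]
    push_cast
    exact Nat.lt_floor_add_one _
  have h6 := floor_add hs
  rw [div_lt_iff₀ sqrt3_pos] at h5
  have h7 : 0 ≤ s - 2 := by linarith
  have h8 : (s - 2) * (s - 2) < (R * √3) * (⌊s / 2⌋₊ + ⌊(s - 1) / 2⌋₊) :=
    mul_lt_mul'' h5 h6 h7 h7
  rw [sqrt12]
  nlinarith [sqrt3_pos]

/-- Two unit discs do not overlap if and only if the distance of the centres is at least `2`. -/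
theorem disj_iff (x y : Plane) : Disjoint (interior (Metric.closedBall x 1))
    (interior (Metric.closedBall y 1)) ↔ 2 ≤ dist x y := by
  rw [interior_closedBall _ one_ne_zero, interior_closedBall _ one_ne_zero,
    disjoint_ball_ball_iff one_pos one_pos]
  norm_num

theorem sides_iff (n : ℕ) (s : ℝ) : s ∈ sides n ↔ 0 ≤ s ∧ ∃ c : Fin n → Plane,
    (∀ i j, c i j ∈ Set.Icc 1 (s - 1)) ∧ ∀ i j, i ≠ j → 2 ≤ dist (c i) (c j) := by
  constructor
  · rintro ⟨h0, Q, ⟨φ, rfl⟩, c, h1, h2⟩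
    refine ⟨h0, fun i => φ.symm (c i), ?_, ?_⟩
    · intro i j
      have key : ∀ e : Plane, ‖e‖ = 1 → ∀ j, (φ.symm (c i) + e) j ∈ Set.Icc 0 s := by
        intro e he
        have hm : φ (φ.symm (c i) + e) ∈ Metric.closedBall (c i) 1 := by
          have h3 : dist (φ (φ.symm (c i) + e)) (φ (φ.symm (c i))) ≤ 1 := by
            rw [φ.dist_eq, dist_eq_norm, add_sub_cancel_left, he]
          rwa [φ.apply_symm_apply] at h3
        obtain ⟨y, hy, hy2⟩ := h1 i hm
        have := φ.injective hy2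
        rw [← this]
        exact hy
      have k1 := key (EuclideanSpace.single j 1) (by simp) j
      have k2 := key (-EuclideanSpace.single j 1) (by simp) j
      simp only [PiLp.add_apply, PiLp.neg_apply, PiLp.single_apply, if_true,
        Set.mem_Icc] at k1 k2
      constructor
      · linarith [k2.1]
      · linarith [k1.2]
    · intro i j hij
      rw [φ.symm.dist_eq]
      exact (disj_iff _ _).1 (h2 i j hij)
  · rintro ⟨h0, c, h1, h2⟩
    refine ⟨h0, {x : Plane | ∀ i, x i ∈ Set.Icc 0 s}, ⟨IsometryEquiv.refl _, ?_⟩, c, ?_, ?_⟩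
    · rw [show (⇑(IsometryEquiv.refl Plane) : Plane → Plane) = id from rfl, Set.image_id]
    · intro i x hx j
      have h3 : |x j - c i j| ≤ 1 := by
        have h4 := PiLp.norm_apply_le (x - c i) j
        rw [Metric.mem_closedBall, dist_eq_norm] at hx
        rw [PiLp.sub_apply, Real.norm_eq_abs] at h4
        linarith
      rw [abs_le] at h3
      have h5 := h1 i j
      rw [Set.mem_Icc] at h5 ⊢
      constructor <;> linarith [h5.1, h5.2, h3.1, h3.2]
    · intro i j hij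
      exact (disj_iff _ _).2 (h2 i j hij)

theorem contains {s : ℝ} (hs : 2 ≤ s) {n : ℕ} (hn : n ≤ (idx s).card) : s ∈ sides n := by
  rw [sides_iff]
  let e := (idx s).equivFin.symm
  refine ⟨by linarith, fun i => cen (e (Fin.castLE hn i)).1.1 (e (Fin.castLE hn i)).1.2, ?_, ?_⟩
  · intro i j
    exact idx_bounds hs (e (Fin.castLE hn i)).2 j
  · intro i j hij
    refine cen_dist ?_
    intro h
    apply hij
    have h2 : e (Fin.castLE hn i) = e (Fin.castLE hn j) := by
      apply Subtype.ext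
      rw [Prod.mk.injEq] at h
      exact Sigma.ext h.1 (heq_of_eq h.2)
    have h3 := e.injective h2
    exact Fin.castLE_injective hn h3

theorem two_le {n : ℕ} (hn : 1 ≤ n) {s : ℝ} (h : s ∈ sides n) : 2 ≤ s := by
  rw [sides_iff] at h
  obtain ⟨-, c, h1, -⟩ := h
  have := h1 ⟨0, hn⟩ 0
  rw [Set.mem_Icc] at this
  linarith [this.1, this.2]

theorem sides_nonempty (n : ℕ) : (sides n).Nonempty := by
  have h12 : (0 : ℝ) < √12 := by positivity
  have hn : (0 : ℝ) ≤ n := Nat.cast_nonneg n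
  have hs : (2 : ℝ) ≤ 2 + √12 * (n + 1) := by
    have : 0 ≤ √12 * (n + 1) := by positivity
    linarith
  refine ⟨2 + √12 * (n + 1), contains hs ?_⟩
  have h1 := idx_card hs
  have h2 : (n : ℝ) < (idx (2 + √12 * (n + 1))).card := by
    have h3 : √12 * n ≤ (2 + √12 * (n + 1) - 2) ^ 2 := by
      have h4 : √12 ^ 2 = 12 := Real.sq_sqrt (by norm_num)
      have h5 : √12 ≤ 12 := by nlinarith
      have : (2 + √12 * (n + 1) - 2) ^ 2 = 12 * (n + 1) ^ 2 := by
        linear_combination (n + 1 : ℝ) ^ 2 * h4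
      rw [this]
      nlinarith
    exact lt_of_mul_lt_mul_left (lt_of_le_of_lt h3 h1) h12.le
  exact_mod_cast h2.le

theorem sides_bdd (n : ℕ) : BddBelow (sides n) := ⟨0, fun _ h => h.1⟩

/-- The minimum exists. -/
theorem isLeast (n : ℕ) : IsLeast (sides n) (sideMin n) := by
  obtain ⟨M, hM⟩ := sides_nonempty n
  let K : Set (ℝ × (Fin n → Plane)) := {z | z.1 ∈ Set.Icc 0 M ∧
    (∀ i j, z.2 i j ∈ Set.Icc 1 (z.1 - 1)) ∧ ∀ i j, i ≠ j → 2 ≤ dist (z.2 i) (z.2 j)}
  have hfst : Continuous fun z : ℝ × (Fin n → Plane) => z.1 := continuous_fst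
  have hco : ∀ i, Continuous fun z : ℝ × (Fin n → Plane) => z.2 i := fun i =>
    (continuous_apply i).comp continuous_snd
  have hcoj : ∀ i j, Continuous fun z : ℝ × (Fin n → Plane) => z.2 i j := fun i j =>
    (EuclideanSpace.proj (𝕜 := ℝ) j : Plane →L[ℝ] ℝ).continuous.comp (hco i)
  have hK : IsClosed K := by
    have e : K = {z | 0 ≤ z.1} ∩ ({z | z.1 ≤ M} ∩ ((⋂ i, ⋂ j, {z | 1 ≤ z.2 i j}) ∩
        ((⋂ i, ⋂ j, {z | z.2 i j ≤ z.1 - 1}) ∩
          ⋂ i, ⋂ j, {z | i ≠ j → 2 ≤ dist (z.2 i) (z.2 j)}))) := by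
      ext z
      simp only [K, Set.mem_ofPred_eq, Set.mem_inter_iff, Set.mem_iInter, Set.mem_Icc]
      constructor
      · rintro ⟨⟨a, b⟩, c, d⟩
        exact ⟨a, b, fun i j => (c i j).1, fun i j => (c i j).2, d⟩
      · rintro ⟨a, b, c, c', d⟩
        exact ⟨⟨a, b⟩, fun i j => ⟨c i j, c' i j⟩, d⟩
    rw [e]
    refine (isClosed_le continuous_const hfst).inter ((isClosed_le hfst continuous_const).inter
      ((isClosed_iInter fun i => isClosed_iInter fun j =>
        isClosed_le continuous_const (hcoj i j)).inter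
      ((isClosed_iInter fun i => isClosed_iInter fun j =>
        isClosed_le (hcoj i j) (hfst.sub continuous_const)).inter
      (isClosed_iInter fun i => isClosed_iInter fun j => ?_))))
    by_cases hij : i = j
    · simp [hij]
    · simp only [ne_eq, hij, not_false_eq_true, forall_const]
      exact isClosed_le continuous_const ((hco i).dist (hco j))
  have hKc : IsCompact K := by
    have hB : IsCompact (Set.Icc (0 : ℝ) M ×ˢ
        Set.pi Set.univ fun _ : Fin n => Metric.closedBall (0 : Plane) (2 * M)) :=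
      isCompact_Icc.prod (isCompact_univ_pi fun _ => isCompact_closedBall _ _)
    refine hB.of_isClosed_subset hK ?_
    rintro ⟨s, c⟩ ⟨h1, h2, -⟩
    refine ⟨h1, fun i _ => ?_⟩
    rw [mem_closedBall_zero_iff, EuclideanSpace.norm_eq]
    simp only [Set.mem_Icc] at h1 h2
    have hM0 : 0 ≤ M := by linarith [h1.1, h1.2]
    refine Real.sqrt_le_iff.2 ⟨by positivity, ?_⟩
    rw [Fin.sum_univ_two]
    have a0 := h2 i 0
    have a1 := h2 i 1
    simp only [Real.norm_eq_abs, sq_abs]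
    nlinarith [a0.1, a0.2, a1.1, a1.2, h1.1, h1.2]
  have hne : (Prod.fst '' K).Nonempty := by
    rw [sides_iff] at hM
    obtain ⟨h0, c, h1, h2⟩ := hM
    exact ⟨M, (M, c), ⟨⟨h0, le_rfl⟩, h1, h2⟩, rfl⟩
  obtain ⟨m, hm⟩ := (hKc.image continuous_fst).exists_isLeast hne
  have hm2 : IsLeast (sides n) m := by
    constructor
    · obtain ⟨⟨s, c⟩, ⟨h1, h2, h3⟩, rfl⟩ := hm.1
      rw [sides_iff]
      exact ⟨h1.1, c, h2, h3⟩
    · intro s hs
      rcases le_total s M with h | h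
      · rw [sides_iff] at hs
        obtain ⟨h0, c, h1, h2⟩ := hs
        exact hm.2 ⟨(s, c), ⟨⟨h0, h⟩, h1, h2⟩, rfl⟩
      · refine le_trans ?_ h
        rw [sides_iff] at hM
        obtain ⟨h0, c, h1, h2⟩ := hM
        exact hm.2 ⟨(M, c), ⟨⟨h0, le_rfl⟩, h1, h2⟩, rfl⟩
  rw [sideMin, hm2.csInf_eq]
  exact hm2

theorem key {n : ℕ} (hn : 1 ≤ n) : 2 ≤ sideMin n ∧ (sideMin n - 2) ^ 2 ≤ √12 * (n - 1) := by
  have h2 : 2 ≤ sideMin n := two_le hn (isLeast n).1
  refine ⟨h2, ?_⟩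
  by_contra hcon
  rw [not_le] at hcon
  have hn' : (1 : ℝ) ≤ n := by exact_mod_cast hn
  have h12 : (0 : ℝ) < √12 := by positivity
  have hnn : 0 ≤ √12 * ((n : ℝ) - 1) := mul_nonneg h12.le (by linarith)
  set t := √(√12 * ((n : ℝ) - 1)) with ht
  have ht0 : 0 ≤ t := Real.sqrt_nonneg _
  have ht2 : t ^ 2 = √12 * ((n : ℝ) - 1) := Real.sq_sqrt hnn
  have hlt : 2 + t < sideMin n := by
    rw [← ht2] at hcon
    have := lt_of_pow_lt_pow_left₀ 2 (by linarith) hcon
    linarith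
  have h3 := idx_card (s := 2 + t) (by linarith)
  have h4 : (2 + t - 2) ^ 2 = √12 * ((n : ℝ) - 1) := by rw [← ht2]; ring
  rw [h4] at h3
  have h5 : (n : ℝ) - 1 < (idx (2 + t)).card := lt_of_mul_lt_mul_left h3 h12.le
  have h6 : n ≤ (idx (2 + t)).card := by
    have : (n : ℝ) < ((idx (2 + t)).card + 1 : ℕ) := by push_cast; linarith
    have : n < (idx (2 + t)).card + 1 := by exact_mod_cast this
    omega
  have h7 := contains (s := 2 + t) (by linarith) h6
  have h8 := (isLeast n).2 h7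
  linarith

/-- For every `n` the minimal side length `s_n` exists.  For every `n ≥ 1` we have
`(s_n - 2)² ≤ √12 (n - 1)` and `F(s_n) < √12 n`.  So the equality `√12 n = F(s_n)` holds for no
positive integer `n`, in particular not for infinitely many. -/
theorem result :
    (∀ n : ℕ, IsLeast (sides n) (sideMin n)) ∧
    (∀ n : ℕ, 1 ≤ n → (sideMin n - 2) ^ 2 ≤ √12 * (n - 1)) ∧
    (∀ n : ℕ, 1 ≤ n → F (sideMin n) < √12 * n) ∧
    {n : ℕ | 1 ≤ n ∧ √12 * n = F (sideMin n)} = ∅ ∧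
    ¬ {n : ℕ | 1 ≤ n ∧ √12 * n = F (sideMin n)}.Infinite := by
  have h : ∀ n : ℕ, 1 ≤ n → F (sideMin n) < √12 * n := by
    intro n hn
    obtain ⟨h1, h2⟩ := key hn
    have h12 : (0 : ℝ) < √12 := by positivity
    have h3 : 1 ≤ √3 := by
      rw [show (1 : ℝ) = √1 by simp]
      exact Real.sqrt_le_sqrt (by norm_num)
    have e : F (sideMin n) = (sideMin n - 2) ^ 2 - (√3 - 1) * (sideMin n - 2) := by
      unfold F; ring
    rw [e]
    nlinarith [mul_nonneg (sub_nonneg.2 h3) (sub_nonneg.2 h1)]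
  have he : {n : ℕ | 1 ≤ n ∧ √12 * n = F (sideMin n)} = ∅ := by
    ext n
    simp only [Set.mem_ofPred_eq, Set.mem_empty_iff_false, iff_false, not_and]
    intro hn heq
    exact absurd heq (h n hn).ne'
  refine ⟨isLeast, fun n hn => (key hn).2, h, he, ?_⟩
  rw [he]
  exact Set.not_infinite.2 Set.finite_empty

end Pool.Agent.Results.MP_77b5a8_co.NoEquality
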